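import Pool.Agent.Y924.UF.Stm3
import Pool.Agent.Y924.EL.Sem
import Pool.Agent.Y383.UF.FML

/-! # Project UF (helper924), part SEM1: meaning of the templates TEq and TAdd (by helper43) -/

set_option autoImplicit false
set_option linter.unusedSimpArgs false

namespace Pool.Agent.Y43.UF

open Function
open Pool.Agent.Y924.EL Pool.Agent.Y924.UF

section

variable {K : Type} [CommRing K] {O : Set K} {Q : (ℕ → K) → Prop} {h : Fin 5 → Fm}
  {X Y Z : Set K}

lemma sat_cU0 (hK : Keep100 Q) (hR : RepU O Q h X Y Z) {v : ℕ → K} (hv : Q v) {a : ℕ}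
    (ha : 10 ≤ a) : Sat O ((cU 0 a).inst h) v ↔ v a ∈ X := by
  rw [cU, sat_call1 O h v _ (by omega), sat_hole, (hR _ (hK _ _ _ (by norm_num) hv)).1, update_self]

lemma sat_cU1 (hK : Keep100 Q) (hR : RepU O Q h X Y Z) {v : ℕ → K} (hv : Q v) {a : ℕ}
    (ha : 10 ≤ a) : Sat O ((cU 1 a).inst h) v ↔ v a ∈ Y := by
  rw [cU, sat_call1 O h v _ (by omega), sat_hole, (hR _ (hK _ _ _ (by norm_num) hv)).2.1,
    update_self]

lemma sat_cU2 (hK : Keep100 Q) (hR : RepU O Q h X Y Z) {v : ℕ → K} (hv : Q v) {a : ℕ}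
    (ha : 10 ≤ a) : Sat O ((cU 2 a).inst h) v ↔ v a ∈ Z := by
  rw [cU, sat_call1 O h v _ (by omega), sat_hole, (hR _ (hK _ _ _ (by norm_num) hv)).2.2,
    update_self]

/-- the template `T` means the set `A` for all assignments which agree with `v` on the variables
with index at least 64 -/
def Means (O : Set K) (Q : (ℕ → K) → Prop) (h : Fin 5 → Fm) (v : ℕ → K) (T : ℕ → Tp)
    (A : Set K) : Prop :=
  ∀ v' : ℕ → K, Q v' → (∀ j, 64 ≤ j → v' j = v j) → ∀ a, 10 ≤ a → a < 30 →
    (Sat O ((T a).inst h) v' ↔ v' a ∈ A)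

omit [CommRing K] in
lemma agree1 {v v' : ℕ → K} {i : ℕ} {x : K} (hi : i < 64) (hj : ∀ j, 64 ≤ j → v' j = v j) :
    ∀ j, 64 ≤ j → update v' i x j = v j := by
  intro j h64
  rw [update_of_ne (by omega)]
  exact hj j h64

lemma sat_TBij (hK : Keep100 Q) {v : ℕ → K} (hv : Q v) {S T : ℕ → Tp} {A B : Set K} (p : ℕ)
    {s : ℕ} (hs : 64 ≤ s) (hS : Means O Q h v S A) (hT : Means O Q h v T B) :
    Sat O ((TBij p s S T).inst h) v ↔ Bij (BB (v 64) p (v 65) (v 66) (v s)) A B := by
  have e10 : s ≠ 10 := by omega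
  have e11 : s ≠ 11 := by omega
  have e12 : s ≠ 12 := by omega
  have e30 : s ≠ 30 := by omega
  have h0 : ∀ j, 64 ≤ j → v j = v j := fun _ _ => rfl
  simp only [TBij, sat_and, sat_all, sat_imp, sat_ex, sat_eqv, cR, sat_atom, Bij]
  refine and_congr (forall_congr' fun a => imp_congr ?_ (exists_congr fun b => and_congr ?_
    (and_congr ?_ (forall_congr' fun c => imp_congr ?_ (imp_congr ?_ ?_)))))
    (forall_congr' fun a => imp_congr ?_ (exists_congr fun b => and_congr ?_
    (and_congr ?_ (forall_congr' fun c => imp_congr ?_ (imp_congr ?_ ?_)))))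
  · rw [hS _ (hK _ _ _ (by norm_num) hv) (agree1 (by norm_num) h0) 10 (by norm_num) (by norm_num)]
    simp
  · rw [hT _ (hK _ _ _ (by norm_num) (hK _ _ _ (by norm_num) hv))
      (agree1 (by norm_num) (agree1 (by norm_num) h0)) 11 (by norm_num) (by norm_num)]
    simp
  · rw [Pool.Agent.Y383.UF.sat_BFa O p e30 (by norm_num) (by norm_num) (by norm_num) (by norm_num)
      (by norm_num)]
    simp [update_apply, e10, e11]
  · rw [hT _ (hK _ _ _ (by norm_num) (hK _ _ _ (by norm_num) (hK _ _ _ (by norm_num) hv)))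
      (agree1 (by norm_num) (agree1 (by norm_num) (agree1 (by norm_num) h0))) 12 (by norm_num)
      (by norm_num)]
    simp
  · rw [Pool.Agent.Y383.UF.sat_BFa O p e30 (by norm_num) (by norm_num) (by norm_num) (by norm_num)
      (by norm_num)]
    simp [update_apply, e10, e11, e12]
  · simp [update_apply]
  · rw [hT _ (hK _ _ _ (by norm_num) hv) (agree1 (by norm_num) h0) 11 (by norm_num) (by norm_num)]
    simp
  · rw [hS _ (hK _ _ _ (by norm_num) (hK _ _ _ (by norm_num) hv))
      (agree1 (by norm_num) (agree1 (by norm_num) h0)) 10 (by norm_num) (by norm_num)]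
    simp
  · rw [Pool.Agent.Y383.UF.sat_BFa O p e30 (by norm_num) (by norm_num) (by norm_num) (by norm_num)
      (by norm_num)]
    simp [update_apply, e10, e11]
  · rw [hS _ (hK _ _ _ (by norm_num) (hK _ _ _ (by norm_num) (hK _ _ _ (by norm_num) hv)))
      (agree1 (by norm_num) (agree1 (by norm_num) (agree1 (by norm_num) h0))) 12 (by norm_num)
      (by norm_num)]
    simp
  · rw [Pool.Agent.Y383.UF.sat_BFa O p e30 (by norm_num) (by norm_num) (by norm_num) (by norm_num)
      (by norm_num)]
    simp [update_apply, e10, e11, e12]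
  · simp [update_apply]

end

theorem t_SEM1 : Pool.Agent.Y924.UF.S_SEM1 := by
  intro K _ O Q h X Y Z p hK hR v hv
  constructor
  · simp only [TEq, sat_ex, CEq]
    refine exists_congr fun t => exists_congr fun u => exists_congr fun w =>
      exists_congr fun s => ?_
    have h1 : Q (update (update (update (update v 64 t) 65 u) 66 w) 67 s) :=
      hK _ _ _ (by norm_num) (hK _ _ _ (by norm_num) (hK _ _ _ (by norm_num)
        (hK _ _ _ (by norm_num) hv)))
    rw [sat_TBij (A := X) (B := Y) hK h1 p (by norm_num)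
      (fun v' hv' _ a ha _ => sat_cU0 hK hR hv' ha) (fun v' hv' _ a ha _ => sat_cU1 hK hR hv' ha)]
    simp [update_apply]
  · simp only [TAdd, sat_ex, sat_and, CAdd]
    refine exists_congr fun t => exists_congr fun u => exists_congr fun w =>
      exists_congr fun s => exists_congr fun s' => exists_congr fun d => ?_
    have h1 : Q (update (update (update (update (update (update v 64 t) 65 u) 66 w) 67 s) 68 s')
        69 d) :=
      hK _ _ _ (by norm_num) (hK _ _ _ (by norm_num) (hK _ _ _ (by norm_num)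
        (hK _ _ _ (by norm_num) (hK _ _ _ (by norm_num) (hK _ _ _ (by norm_num) hv)))))
    have hval : ∀ v' : ℕ → K, (∀ j, 64 ≤ j → v' j = (update (update (update (update (update
        (update v 64 t) 65 u) 66 w) 67 s) 68 s') 69 d) j) →
        v' 64 = t ∧ v' 65 = u ∧ v' 66 = w ∧ v' 69 = d := by
      intro v' hj
      refine ⟨?_, ?_, ?_, ?_⟩
      · rw [hj 64 (by norm_num)]
        simp [update_apply]
      · rw [hj 65 (by norm_num)]
        simp [update_apply]
      · rw [hj 66 (by norm_num)]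
        simp [update_apply]
      · rw [hj 69 (by norm_num)]
        simp [update_apply]
    refine and_congr ?_ ?_
    · rw [sat_TBij (A := X) (B := {c | c ∈ Z ∧ BB t p u w d c c}) hK h1 p (by norm_num)
        (fun v' hv' _ a ha _ => sat_cU0 hK hR hv' ha) ?_]
      · simp [update_apply]
      · intro v' hv' hj a ha ha'
        obtain ⟨e1, e2, e3, e4⟩ := hval v' hj
        rw [sat_and, sat_cU2 hK hR hv' ha, cR, sat_atom, Pool.Agent.Y383.UF.sat_BFa O p
          (by norm_num) (by omega) (by omega) (by omega) (by omega) (by omega), e1, e2, e3, e4]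
        exact Iff.rfl
    · rw [sat_TBij (A := Y) (B := {c | c ∈ Z ∧ ¬ BB t p u w d c c}) hK h1 p (by norm_num)
        (fun v' hv' _ a ha _ => sat_cU1 hK hR hv' ha) ?_]
      · simp [update_apply]
      · intro v' hv' hj a ha ha'
        obtain ⟨e1, e2, e3, e4⟩ := hval v' hj
        rw [sat_and, sat_cU2 hK hR hv' ha, cR, sat_neg, sat_atom, Pool.Agent.Y383.UF.sat_BFa O p
          (by norm_num) (by omega) (by omega) (by omega) (by omega) (by omega), e1, e2, e3, e4]
        exact Iff.rfl

end Pool.Agent.Y43.UF
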